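import Mathlib
import Pool.Agent.V11110.FrPS

/-!
# Fréchet algebras of power series in infinitely many variables: topologies are not unique

A proper Fréchet algebra of power series `A ⊊ ℂ[[X_0, X_1, ...]]` with two different
Fréchet algebra topologies.
-/

open MvPowerSeries Finset Pool.Agent.V11110.FrPS

namespace Pool.Agent.Results.MP_39588e_an.TwoTopologies

/-- `p` is an increasing sequence of submultiplicative seminorms on the algebra `A` for which
`A` is separated and complete. -/
structure IsFrechetSequence {A : Type*} [CommRing A] [Algebra ℂ A] (p : ℕ → Seminorm ℂ A) :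
    Prop where
  mono : ∀ m x, p m x ≤ p (m + 1) x
  submul : ∀ m x y, p m (x * y) ≤ p m x * p m y
  separated : ∀ x, (∀ m, p m x = 0) → x = 0
  complete : ∀ u : ℕ → A,
    (∀ m, ∀ ε > 0, ∃ N, ∀ i ≥ N, ∀ j ≥ N, p m (u i - u j) < ε) →
      ∃ x, ∀ m, ∀ ε > 0, ∃ N, ∀ i ≥ N, p m (u i - x) < ε

/-- The topology `t` makes the (commutative, unital, complex) algebra `A` a Fréchet algebra:
it is the topology of an increasing sequence of submultiplicative seminorms for which `A` is
separated and complete. -/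
def IsFrechetAlgebraTopology {A : Type*} [CommRing A] [Algebra ℂ A] (t : TopologicalSpace A) :
    Prop :=
  ∃ p : ℕ → Seminorm ℂ A, IsFrechetSequence p ∧
    ∀ U : Set A, t.IsOpen U ↔ ∀ x ∈ U, ∃ m, ∃ ε > 0, ∀ y, p m (y - x) < ε → y ∈ U

/-- The subalgebra `A` of `ℂ[[X_0, X_1, ...]]` with the topology `t` is a Fréchet algebra of
power series: `t` is a Fréchet algebra topology, `A` contains every `X_i`, and every
coordinate functional is `t`-continuous on `A`. -/
def IsFrAPS (A : Subalgebra ℂ (MvPowerSeries ℕ ℂ)) (t : TopologicalSpace A) : Prop :=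
  IsFrechetAlgebraTopology t ∧ (∀ i : ℕ, (MvPowerSeries.X i : MvPowerSeries ℕ ℂ) ∈ A) ∧
    ∀ r : ℕ →₀ ℕ,
      @Continuous A ℂ t _ (fun f => MvPowerSeries.coeff r (f : MvPowerSeries ℕ ℂ))

/-! ### The topology of a sequence of seminorms -/

section top

variable {A : Type*} [CommRing A] [Algebra ℂ A]

theorem mono_le {p : ℕ → Seminorm ℂ A} (h : IsFrechetSequence p) {m n : ℕ} (hmn : m ≤ n)
    (x : A) : p m x ≤ p n x := by
  induction n, hmn using Nat.le_induction with
  | base => exact le_rfl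
  | succ n _ ih => exact ih.trans (h.mono n x)

/-- the topology of a sequence of seminorms -/
@[reducible] def topOf (p : ℕ → Seminorm ℂ A) (h : IsFrechetSequence p) : TopologicalSpace A where
  IsOpen U := ∀ x ∈ U, ∃ m, ∃ ε > 0, ∀ y, p m (y - x) < ε → y ∈ U
  isOpen_univ := fun x _ => ⟨0, 1, one_pos, fun y _ => trivial⟩
  isOpen_inter := by
    intro U V hU hV x hx
    obtain ⟨m, ε, hε, h1⟩ := hU x hx.1
    obtain ⟨n, δ, hδ, h2⟩ := hV x hx.2
    refine ⟨max m n, min ε δ, lt_min hε hδ, fun y hy => ⟨h1 y ?_, h2 y ?_⟩⟩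
    · exact lt_of_le_of_lt (mono_le h (le_max_left m n) _) (lt_of_lt_of_le hy (min_le_left _ _))
    · exact lt_of_le_of_lt (mono_le h (le_max_right m n) _) (lt_of_lt_of_le hy (min_le_right _ _))
  isOpen_sUnion := by
    intro S hS x hx
    obtain ⟨U, hU, hxU⟩ := hx
    obtain ⟨m, ε, hε, h1⟩ := hS U hU x hxU
    exact ⟨m, ε, hε, fun y hy => ⟨U, hU, h1 y hy⟩⟩

theorem topOf_isOpen (p : ℕ → Seminorm ℂ A) (h : IsFrechetSequence p) (U : Set A) :
    (topOf p h).IsOpen U ↔ ∀ x ∈ U, ∃ m, ∃ ε > 0, ∀ y, p m (y - x) < ε → y ∈ U := Iff.rfl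

theorem cont_of_bound (p : ℕ → Seminorm ℂ A) (h : IsFrechetSequence p) (l : A →ₗ[ℂ] ℂ) (m : ℕ)
    (hb : ∀ x, ‖l x‖ ≤ p m x) : @Continuous A ℂ (topOf p h) _ l := by
  let _ := topOf p h
  rw [continuous_def]
  intro V hV
  show ∀ x ∈ l ⁻¹' V, ∃ m, ∃ ε > 0, ∀ y, p m (y - x) < ε → y ∈ l ⁻¹' V
  intro x hx
  obtain ⟨ε, hε, h1⟩ := Metric.isOpen_iff.mp hV (l x) hx
  refine ⟨m, ε, hε, fun y hy => h1 ?_⟩
  rw [Metric.mem_ball, dist_eq_norm, ← map_sub]
  exact lt_of_le_of_lt (hb _) hy

end top

/-! ### The algebra -/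

theorem coeff_pure_mul (f g : F) (n : ℕ) : coeff (Finsupp.single 0 n) (f * g)
    = ∑ kl ∈ antidiagonal n, coeff (Finsupp.single 0 kl.1) f * coeff (Finsupp.single 0 kl.2) g := by
  rw [coeff_mul, Finsupp.antidiagonal_single, Finset.sum_map]
  rfl

/-- series whose part in `X 0` alone is absolutely summable -/
noncomputable def AA : Subalgebra ℂ (MvPowerSeries ℕ ℂ) where
  carrier := {f | Summable fun n : ℕ => ‖coeff (Finsupp.single 0 n) f‖}
  mul_mem' := by
    intro f g hf hg
    have h := summable_norm_sum_mul_antidiagonal_of_summable_norm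
      (f := fun n : ℕ => coeff (Finsupp.single 0 n) f)
      (g := fun n : ℕ => coeff (Finsupp.single 0 n) g) hf hg
    refine h.congr (fun n => ?_)
    rw [coeff_pure_mul]
  add_mem' := by
    intro f g hf hg
    show Summable fun n : ℕ => ‖coeff (Finsupp.single 0 n) (f + g)‖
    refine Summable.of_nonneg_of_le (fun n => norm_nonneg _) (fun n => ?_) (hf.add hg)
    rw [map_add]
    exact norm_add_le _ _
  algebraMap_mem' := by
    intro c
    show Summable fun n : ℕ => ‖coeff (Finsupp.single 0 n) (algebraMap ℂ (MvPowerSeries ℕ ℂ) c)‖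
    apply summable_of_ne_finset_zero (s := {0})
    intro n hn
    rw [norm_eq_zero]
    have h : (algebraMap ℂ (MvPowerSeries ℕ ℂ) c) = C c := rfl
    classical
    rw [h, coeff_C, if_neg]
    intro h0
    apply hn
    rw [Finset.mem_singleton]
    simpa using h0

theorem mem_AA (f : F) : f ∈ AA ↔ Summable fun n : ℕ => ‖coeff (Finsupp.single 0 n) f‖ := Iff.rfl

/-- the series with given coefficients -/
def mkF (a : (ℕ →₀ ℕ) → ℂ) : F := a

theorem coeff_mkF (a : (ℕ →₀ ℕ) → ℂ) (r : ℕ →₀ ℕ) : coeff r (mkF a) = a r := rfl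

theorem X_mem (i : ℕ) : (X i : F) ∈ AA := by
  classical
  rw [mem_AA]
  apply summable_of_ne_finset_zero (s := {1})
  intro n hn
  rw [norm_eq_zero, coeff_X, if_neg]
  intro h0
  apply hn
  rw [Finset.mem_singleton]
  have h1 := congrArg (fun r : ℕ →₀ ℕ => r.sum fun _ n => n) h0
  simpa using h1

theorem AA_ne_top : AA ≠ ⊤ := by
  intro h
  have h1 : mkF (fun _ => 1) ∈ AA := by rw [h]; trivial
  rw [mem_AA] at h1
  have h2 : (fun n : ℕ => ‖coeff (Finsupp.single 0 n) (mkF (fun _ => 1))‖)
      = fun _ => (1 : ℝ) := by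
    funext n
    rw [coeff_mkF]
    simp
  rw [h2, summable_const_iff] at h1
  exact one_ne_zero h1

/-- the bounds of the finite boxes -/
noncomputable def dm (m : ℕ) : ℕ →₀ ℕ := ∑ i ∈ range m, Finsupp.single i m

theorem dm_apply (m i : ℕ) : dm m i = if i < m then m else 0 := by
  unfold dm
  rw [Finsupp.finsetSum_apply]
  simp only [Finsupp.single_apply]
  rw [Finset.sum_ite_eq']
  simp

theorem dm_mono (m : ℕ) : dm m ≤ dm (m + 1) := by
  intro i
  rw [dm_apply, dm_apply]
  split_ifs <;> omega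

theorem exists_dm (r : ℕ →₀ ℕ) : ∃ m, r ≤ dm m := by
  refine ⟨r.support.sup id + r.sum (fun _ n => n) + 1, fun i => ?_⟩
  rw [dm_apply]
  by_cases hi : i ∈ r.support
  · have h1 : i ≤ r.support.sup id := Finset.le_sup (f := id) hi
    have h2 : r i ≤ r.sum (fun _ n => n) :=
      Finset.single_le_sum (f := fun i => r i) (fun _ _ => Nat.zero_le _) hi
    rw [if_pos (by omega)]
    omega
  · rw [Finsupp.notMem_support_iff.mp hi]
    exact Nat.zero_le _

/-- `ℓ¹` seminorm of the part in `X 0` -/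
noncomputable def pureS : Seminorm ℂ AA :=
  Seminorm.of (fun f => ∑' n : ℕ, ‖coeff (Finsupp.single 0 n) (f : F)‖)
    (by
      intro f g
      rw [← Summable.tsum_add f.2 g.2]
      refine Summable.tsum_le_tsum (fun n => ?_) (f + g).2 (Summable.add f.2 g.2)
      show ‖coeff (Finsupp.single 0 n) ((f : F) + (g : F))‖ ≤ _
      rw [map_add]
      exact norm_add_le _ _)
    (by
      intro c f
      rw [← tsum_mul_left]
      apply tsum_congr
      intro n
      show ‖coeff (Finsupp.single 0 n) (c • (f : F))‖ = _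
      rw [coeff_smul, norm_mul])

/-- `ℓ¹` seminorm of the coefficients in a finite box -/
noncomputable def finS (d : ℕ →₀ ℕ) : Seminorm ℂ AA :=
  Seminorm.of (fun f => ∑ r ∈ Finset.Icc 0 d, ‖coeff r (f : F)‖)
    (by
      intro f g
      rw [← Finset.sum_add_distrib]
      apply Finset.sum_le_sum
      intro r _
      show ‖coeff r ((f : F) + (g : F))‖ ≤ _
      rw [map_add]
      exact norm_add_le _ _)
    (by
      intro c f
      rw [Finset.mul_sum]
      apply Finset.sum_congr rfl
      intro r _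
      show ‖coeff r (c • (f : F))‖ = _
      rw [coeff_smul, norm_mul])

theorem pureS_apply (f : AA) : pureS f = ∑' n : ℕ, ‖coeff (Finsupp.single 0 n) (f : F)‖ := rfl

theorem finS_apply (d : ℕ →₀ ℕ) (f : AA) :
    finS d f = ∑ r ∈ Finset.Icc 0 d, ‖coeff r (f : F)‖ := rfl

theorem pureS_mul (f g : AA) : pureS (f * g) ≤ pureS f * pureS g := by
  rw [pureS_apply, pureS_apply, pureS_apply]
  have h := tsum_mul_tsum_eq_tsum_sum_antidiagonal_of_summable_norm
    (f := fun n : ℕ => ‖coeff (Finsupp.single 0 n) (f : F)‖)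
    (g := fun n : ℕ => ‖coeff (Finsupp.single 0 n) (g : F)‖)
    ((mem_AA f.1).mp f.2).norm ((mem_AA g.1).mp g.2).norm
  have hs := summable_norm_sum_mul_antidiagonal_of_summable_norm
    (f := fun n : ℕ => ‖coeff (Finsupp.single 0 n) (f : F)‖)
    (g := fun n : ℕ => ‖coeff (Finsupp.single 0 n) (g : F)‖)
    ((mem_AA f.1).mp f.2).norm ((mem_AA g.1).mp g.2).norm
  rw [h]
  refine Summable.tsum_le_tsum (fun n => ?_) (f * g).2 hs.of_norm
  show ‖coeff (Finsupp.single 0 n) ((f : F) * (g : F))‖ ≤ _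
  rw [coeff_pure_mul]
  refine (norm_sum_le _ _).trans (Finset.sum_le_sum fun p _ => ?_)
  rw [norm_mul]

theorem finS_mul (d : ℕ →₀ ℕ) (f g : AA) : finS d (f * g) ≤ finS d f * finS d g := by
  classical
  rw [finS_apply, finS_apply, finS_apply, Finset.sum_mul_sum, ← Finset.sum_product']
  set I : Finset (ℕ →₀ ℕ) := Finset.Icc 0 d with hI
  let a : (ℕ →₀ ℕ) × (ℕ →₀ ℕ) → ℝ := fun p => ‖coeff p.1 (f : F)‖ * ‖coeff p.2 (g : F)‖
  have h1 : ∀ r ∈ I, ‖coeff r ((f * g : AA) : F)‖
      ≤ ∑ p ∈ ((I ×ˢ I).filter fun p => p.1 + p.2 ∈ I).filter (fun p => p.1 + p.2 = r), a p := by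
    intro r hr
    show ‖coeff r ((f : F) * (g : F))‖ ≤ _
    rw [coeff_mul]
    refine (norm_sum_le _ _).trans ?_
    apply le_of_eq
    have hset : ((I ×ˢ I).filter fun p => p.1 + p.2 ∈ I).filter (fun p => p.1 + p.2 = r)
        = antidiagonal r := by
      ext p
      rw [Finset.mem_filter, Finset.mem_filter, HasAntidiagonal.mem_antidiagonal,
        Finset.mem_product]
      constructor
      · exact fun h => h.2
      · intro h
        have hr' := (Finset.mem_Icc.mp hr).2
        refine ⟨⟨⟨?_, ?_⟩, by rw [h]; exact hr⟩, h⟩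
        · exact Finset.mem_Icc.mpr ⟨bot_le, le_trans (by rw [← h]; exact le_self_add) hr'⟩
        · exact Finset.mem_Icc.mpr ⟨bot_le, le_trans (by rw [← h]; exact le_add_self) hr'⟩
    rw [hset]
    apply Finset.sum_congr rfl
    intro p _
    rw [norm_mul]
  refine (Finset.sum_le_sum h1).trans ?_
  rw [Finset.sum_fiberwise_of_maps_to (fun p hp => (Finset.mem_filter.mp hp).2)]
  exact Finset.sum_le_sum_of_subset_of_nonneg (Finset.filter_subset _ _)
    (fun p _ _ => mul_nonneg (norm_nonneg _) (norm_nonneg _))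

/-- the seminorms of the first topology -/
noncomputable def pp (m : ℕ) : Seminorm ℂ AA := pureS ⊔ finS (dm m)

theorem pp_apply (m : ℕ) (f : AA) : pp m f = max (pureS f) (finS (dm m) f) := rfl

theorem coeff_le_pp (r : ℕ →₀ ℕ) (m : ℕ) (h : r ≤ dm m) (f : AA) :
    ‖coeff r (f : F)‖ ≤ pp m f := by
  refine le_trans ?_ (le_max_right _ _)
  rw [finS_apply]
  exact Finset.single_le_sum (f := fun r => ‖coeff r (f : F)‖) (fun _ _ => norm_nonneg _)
    (Finset.mem_Icc.mpr ⟨bot_le, h⟩)

theorem pp_complete (u : ℕ → AA)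
    (hu : ∀ m, ∀ ε > 0, ∃ N, ∀ i ≥ N, ∀ j ≥ N, pp m (u i - u j) < ε) :
    ∃ x, ∀ m, ∀ ε > 0, ∃ N, ∀ i ≥ N, pp m (u i - x) < ε := by
  -- limits of the coefficients
  have hc : ∀ r : ℕ →₀ ℕ, ∃ a : ℂ,
      Filter.Tendsto (fun i => coeff r (u i : F)) Filter.atTop (nhds a) := by
    intro r
    apply cauchySeq_tendsto_of_complete
    rw [Metric.cauchySeq_iff']
    intro ε hε
    obtain ⟨m, hm⟩ := exists_dm r
    obtain ⟨N, hN⟩ := hu m ε hε
    refine ⟨N, fun n hn => ?_⟩
    rw [dist_eq_norm]
    have := coeff_le_pp r m hm (u n - u N)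
    have h2 : coeff r ((u n - u N : AA) : F) = coeff r (u n : F) - coeff r (u N : F) := by
      show coeff r ((u n : F) - (u N : F)) = _
      rw [map_sub]
    rw [h2] at this
    exact lt_of_le_of_lt this (hN n hn N le_rfl)
  choose a ha using hc
  -- the part in `X 0`
  have hpure : ∀ ε > 0, ∃ N, ∀ i ≥ N, ∀ S : Finset ℕ,
      ∑ n ∈ S, ‖coeff (Finsupp.single 0 n) (u i : F) - a (Finsupp.single 0 n)‖ ≤ ε := by
    intro ε hε
    obtain ⟨N, hN⟩ := hu 0 ε hε
    refine ⟨N, fun i hi S => ?_⟩
    have hlim : Filter.Tendsto (fun j => ∑ n ∈ S, ‖coeff (Finsupp.single 0 n) (u i : F)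
        - coeff (Finsupp.single 0 n) (u j : F)‖) Filter.atTop
        (nhds (∑ n ∈ S, ‖coeff (Finsupp.single 0 n) (u i : F) - a (Finsupp.single 0 n)‖)) := by
      apply tendsto_finsetSum
      intro n _
      exact (tendsto_const_nhds.sub (ha _)).norm
    refine le_of_tendsto hlim ?_
    filter_upwards [Filter.eventually_ge_atTop N] with j hj
    have h1 : pureS (u i - u j) < ε := lt_of_le_of_lt (le_max_left _ _) (hN i hi j hj)
    rw [pureS_apply] at h1
    refine le_trans ?_ h1.le
    have h2 := (u i - u j).2.sum_le_tsum S (fun n _ => norm_nonneg _)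
    refine le_trans (le_of_eq ?_) h2
    apply Finset.sum_congr rfl
    intro n _
    show _ = ‖coeff (Finsupp.single 0 n) ((u i : F) - (u j : F))‖
    rw [map_sub]
  have hsum : ∀ ε > 0, ∃ N, ∀ i ≥ N,
      Summable (fun n : ℕ => ‖coeff (Finsupp.single 0 n) (u i : F) - a (Finsupp.single 0 n)‖) ∧
      ∑' n : ℕ, ‖coeff (Finsupp.single 0 n) (u i : F) - a (Finsupp.single 0 n)‖ ≤ ε := by
    intro ε hε
    obtain ⟨N, hN⟩ := hpure ε hε
    refine ⟨N, fun i hi => ?_⟩
    have h1 := summable_of_sum_le (fun n => norm_nonneg _) (hN i hi)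
    exact ⟨h1, h1.tsum_le_of_sum_le (hN i hi)⟩
  have hx : mkF a ∈ AA := by
    obtain ⟨N, hN⟩ := hsum 1 one_pos
    have h1 := (hN N le_rfl).1
    rw [mem_AA]
    refine Summable.of_nonneg_of_le (fun n => norm_nonneg _) (fun n => ?_) (h1.add (u N).2)
    rw [coeff_mkF]
    have : a (Finsupp.single 0 n) = -(coeff (Finsupp.single 0 n) (u N : F)
        - a (Finsupp.single 0 n)) + coeff (Finsupp.single 0 n) (u N : F) := by ring
    rw [this]
    refine (norm_add_le _ _).trans ?_
    rw [norm_neg]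
    simp
  refine ⟨⟨_, hx⟩, fun m ε hε => ?_⟩
  obtain ⟨N1, hN1⟩ := hsum (ε / 2) (by positivity)
  have hfin : Filter.Tendsto (fun i => ∑ r ∈ Finset.Icc 0 (dm m), ‖coeff r (u i : F) - a r‖)
      Filter.atTop (nhds 0) := by
    have h0 : (0 : ℝ) = ∑ r ∈ Finset.Icc 0 (dm m), ‖a r - a r‖ := by simp
    rw [h0]
    apply tendsto_finsetSum
    intro r _
    exact ((ha r).sub tendsto_const_nhds).norm
  obtain ⟨N2, hN2⟩ := Filter.eventually_atTop.mp (hfin.eventually (gt_mem_nhds hε))
  refine ⟨max N1 N2, fun i hi => ?_⟩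
  rw [pp_apply]
  apply max_lt
  · rw [pureS_apply]
    refine lt_of_le_of_lt (le_trans (le_of_eq ?_) (hN1 i (le_trans (le_max_left _ _) hi)).2)
      (half_lt_self hε)
    apply tsum_congr
    intro n
    show ‖coeff (Finsupp.single 0 n) ((u i : F) - mkF a)‖ = _
    rw [map_sub, coeff_mkF]
  · rw [finS_apply]
    refine lt_of_le_of_lt (le_of_eq ?_) (hN2 i (le_trans (le_max_right _ _) hi))
    apply Finset.sum_congr rfl
    intro r _
    show ‖coeff r ((u i : F) - mkF a)‖ = _
    rw [map_sub, coeff_mkF]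

theorem pp_frechet : IsFrechetSequence pp where
  mono := by
    intro m x
    rw [pp_apply, pp_apply]
    apply max_le_max le_rfl
    rw [finS_apply, finS_apply]
    exact Finset.sum_le_sum_of_subset_of_nonneg
      (Finset.Icc_subset_Icc le_rfl (dm_mono m)) (fun _ _ _ => norm_nonneg _)
  submul := by
    intro m x y
    rw [pp_apply, pp_apply, pp_apply]
    apply max_le
    · refine (pureS_mul x y).trans ?_
      exact mul_le_mul (le_max_left _ _) (le_max_left _ _) (apply_nonneg _ _)
        (le_trans (apply_nonneg _ _) (le_max_left _ _))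
    · refine (finS_mul _ x y).trans ?_
      exact mul_le_mul (le_max_right _ _) (le_max_right _ _) (apply_nonneg _ _)
        (le_trans (apply_nonneg _ _) (le_max_left _ _))
  separated := by
    intro x hx
    apply Subtype.ext
    ext r
    obtain ⟨m, hm⟩ := exists_dm r
    have := coeff_le_pp r m hm x
    rw [hx m] at this
    show coeff r (x : F) = coeff r (0 : F)
    rw [map_zero]
    exact norm_le_zero_iff.mp this
  complete := pp_complete

/-! ### The discontinuous automorphism -/

section auto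

variable (D : Derivation ℂ F F) (hP : ∀ f n, coeff (Finsupp.single 0 n) (D f) = 0)

/-- the restriction of the exponential to `AA` -/
noncomputable def thA (c : ℂ) : AA →ₗ[ℂ] AA where
  toFun f := ⟨th D c f, by
    rw [mem_AA]
    refine ((mem_AA f.1).mp f.2).congr (fun n => ?_)
    rw [coeff_pure hP]⟩
  map_add' f g := Subtype.ext (th_add D c f g)
  map_smul' a f := Subtype.ext (th_smul D c a f)

theorem thA_coe (c : ℂ) (f : AA) : (thA D hP c f : F) = th D c f := rfl

variable {D} (hD : Raise D)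

include hD

theorem thA_mul (c : ℂ) (f g : AA) : thA D hP c (f * g) = thA D hP c f * thA D hP c g :=
  Subtype.ext (th_mul hD c f g)

theorem thA_comp (c c' : ℂ) (f : AA) : thA D hP c (thA D hP c' f) = thA D hP (c + c') f :=
  Subtype.ext (th_comp hD c c' f)

theorem thA_inv (f : AA) : thA D hP 1 (thA D hP (-1) f) = f := by
  rw [thA_comp hP hD]
  apply Subtype.ext
  rw [thA_coe, add_neg_cancel, th_zero]

theorem thA_inv' (f : AA) : thA D hP (-1) (thA D hP 1 f) = f := by
  rw [thA_comp hP hD]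
  apply Subtype.ext
  rw [thA_coe, neg_add_cancel, th_zero]

theorem comp_frechet : IsFrechetSequence (fun m => (pp m).comp (thA D hP 1)) where
  mono := fun m x => pp_frechet.mono m _
  submul := by
    intro m x y
    show pp m (thA D hP 1 (x * y)) ≤ _
    rw [thA_mul hP hD]
    exact pp_frechet.submul m _ _
  separated := by
    intro x hx
    have h := pp_frechet.separated (thA D hP 1 x) hx
    rw [← thA_inv' hP hD x, h, map_zero]
  complete := by
    intro u hu
    obtain ⟨y, hy⟩ := pp_frechet.complete (fun i => thA D hP 1 (u i)) (by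
      intro m ε hε
      obtain ⟨N, hN⟩ := hu m ε hε
      refine ⟨N, fun i hi j hj => ?_⟩
      rw [← map_sub]
      exact hN i hi j hj)
    refine ⟨thA D hP (-1) y, fun m ε hε => ?_⟩
    obtain ⟨N, hN⟩ := hy m ε hε
    refine ⟨N, fun i hi => ?_⟩
    show pp m (thA D hP 1 (u i - thA D hP (-1) y)) < ε
    rw [map_sub, thA_inv hP hD]
    exact hN i hi

end auto

/-- the coordinate functional on `AA` -/
noncomputable def co (r : ℕ →₀ ℕ) : AA →ₗ[ℂ] ℂ where
  toFun f := coeff r (f : F)
  map_add' f g := by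
    show coeff r ((f : F) + (g : F)) = _
    rw [map_add]
  map_smul' a f := by
    show coeff r (a • (f : F)) = _
    rw [coeff_smul]
    rfl

/-- the tail of `∑ X i ^ 2` -/
noncomputable def tail (M : ℕ) : F := q - ∑ i ∈ range M, (X i * X i : F)

theorem coeff_tail (M : ℕ) (r : ℕ →₀ ℕ) (h : ∀ i, M ≤ i → r ≠ Finsupp.single i 2) :
    coeff r (tail M) = 0 := by
  classical
  unfold tail
  have h1 : ∀ i, (X i * X i : F) = monomial (Finsupp.single i 2) 1 := by
    intro i
    rw [X, monomial_mul_monomial, one_mul, ← Finsupp.single_add]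
  rw [map_sub, map_sum]
  simp_rw [h1, coeff_monomial]
  by_cases hr : ∃ i, r = Finsupp.single i 2
  · rw [coeff_q_one r hr]
    obtain ⟨i, rfl⟩ := hr
    have hi : i < M := by
      by_contra hc
      exact h i (not_lt.mp hc) rfl
    rw [Finset.sum_eq_single i, if_pos rfl, sub_self]
    · intro j _ hj
      rw [if_neg]
      intro he
      have := (Finsupp.single_left_inj (by norm_num : (2 : ℕ) ≠ 0)).mp he
      exact hj this.symm
    · intro hc
      exact absurd (Finset.mem_range.mpr hi) hc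
  · rw [coeff_q_zero r hr, Finset.sum_eq_zero, sub_zero]
    intro i _
    rw [if_neg]
    intro he
    exact hr ⟨i, he⟩

theorem tail_mem (M : ℕ) (hM : 1 ≤ M) : tail M ∈ AA := by
  rw [mem_AA]
  apply summable_of_ne_finset_zero (s := ∅)
  intro n _
  rw [norm_eq_zero]
  apply coeff_tail
  intro i hi he
  have := DFunLike.congr_fun he i
  rw [Finsupp.single_apply, Finsupp.single_apply, if_pos rfl, if_neg (by omega)] at this
  omega

theorem pp_tail (m M : ℕ) (hM : 1 ≤ M) (h : m ≤ M) : pp m ⟨tail M, tail_mem M hM⟩ = 0 := by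
  rw [pp_apply]
  have h1 : pureS ⟨tail M, tail_mem M hM⟩ = 0 := by
    rw [pureS_apply]
    have : (fun n : ℕ => ‖coeff (Finsupp.single 0 n) (tail M)‖) = fun _ => 0 := by
      funext n
      rw [norm_eq_zero]
      apply coeff_tail
      intro i hi he
      have := DFunLike.congr_fun he i
      rw [Finsupp.single_apply, Finsupp.single_apply, if_pos rfl, if_neg (by omega)] at this
      omega
    show ∑' n : ℕ, ‖coeff (Finsupp.single 0 n) (tail M)‖ = 0
    rw [this, tsum_zero]
  have h2 : finS (dm m) ⟨tail M, tail_mem M hM⟩ = 0 := by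
    rw [finS_apply]
    apply Finset.sum_eq_zero
    intro r hr
    rw [norm_eq_zero]
    show coeff r (tail M) = 0
    apply coeff_tail
    intro i hi he
    have h3 := (Finset.mem_Icc.mp hr).2 i
    rw [dm_apply, if_neg (by omega), he, Finsupp.single_apply, if_pos rfl] at h3
    omega
  rw [h1, h2, max_self]

/-- **The answer to Q1 is no.**  There is a Fréchet algebra of power series in infinitely many
variables, different from the algebra of all power series, with a second Fréchet algebra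
topology. -/
theorem result : ∃ (A : Subalgebra ℂ (MvPowerSeries ℕ ℂ)) (t t' : TopologicalSpace A),
    A ≠ ⊤ ∧ IsFrAPS A t ∧ IsFrechetAlgebraTopology t' ∧ t ≠ t' := by
  obtain ⟨lam, h1, hX, hq, hl⟩ := exists_lam
  have hP := DD_pure lam hl
  have hD := DD_raise lam hl h1 hX
  refine ⟨AA, topOf pp pp_frechet, topOf _ (comp_frechet hP hD), AA_ne_top, ⟨?_, X_mem, ?_⟩,
    ?_, ?_⟩
  · exact ⟨pp, pp_frechet, fun U => Iff.rfl⟩
  · intro r
    obtain ⟨m, hm⟩ := exists_dm r
    exact cont_of_bound pp pp_frechet (co r) m (fun x => coeff_le_pp r m hm x)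
  · exact ⟨_, comp_frechet hP hD, fun U => Iff.rfl⟩
  · intro heq
    let r : ℕ →₀ ℕ := Finsupp.single 0 1 + Finsupp.single 1 1
    obtain ⟨m0, hm0⟩ := exists_dm r
    let U : Set AA := {f | ‖co r (thA (DD lam hl) hP 1 f)‖ < 1}
    have hU : (topOf _ (comp_frechet hP hD)).IsOpen U := by
      intro x hx
      refine ⟨m0, 1 - ‖co r (thA (DD lam hl) hP 1 x)‖, sub_pos.mpr hx, fun y hy => ?_⟩
      have h2 : ‖co r (thA (DD lam hl) hP 1 (y - x))‖
          ≤ pp m0 (thA (DD lam hl) hP 1 (y - x)) := coeff_le_pp r m0 hm0 _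
      have h3 : pp m0 (thA (DD lam hl) hP 1 (y - x))
          < 1 - ‖co r (thA (DD lam hl) hP 1 x)‖ := hy
      show ‖co r (thA (DD lam hl) hP 1 y)‖ < 1
      have h4 : co r (thA (DD lam hl) hP 1 y)
          = co r (thA (DD lam hl) hP 1 (y - x)) + co r (thA (DD lam hl) hP 1 x) := by
        rw [← map_add, ← map_add, sub_add_cancel]
      rw [h4]
      refine lt_of_le_of_lt (norm_add_le _ _) ?_
      linarith
    rw [← heq] at hU
    obtain ⟨m, ε, hε, hm⟩ := hU 0 (by
      show ‖co r (thA (DD lam hl) hP 1 0)‖ < 1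
      rw [map_zero, map_zero, norm_zero]
      exact one_pos)
    have h5 := hm ⟨tail (m + 1), tail_mem (m + 1) (by omega)⟩ (by
      rw [sub_zero, pp_tail m (m + 1) (by omega) (by omega)]
      exact hε)
    have h6 : co r (thA (DD lam hl) hP 1 ⟨tail (m + 1), tail_mem (m + 1) (by omega)⟩) = 1 := by
      show coeff r (th (DD lam hl) 1 (tail (m + 1))) = 1
      show coeff r (Ex (DD lam hl) 1 (r 0 + 1) (tail (m + 1))) = 1
      have hr0 : r 0 = 1 := by simp [r]
      rw [hr0]
      unfold Ex
      rw [Finset.sum_range_succ, Finset.sum_range_succ, Finset.sum_range_zero, zero_add, map_add,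
        coeff_smul, coeff_smul]
      simp only [Function.iterate_zero, id_eq, Function.iterate_one, pow_zero, pow_one,
        Nat.factorial_zero, Nat.factorial_one, Nat.cast_one, div_one, one_mul]
      rw [coeff_DD lam hl, coeff_tail, zero_add]
      · unfold tail
        rw [map_sub, map_sum, hq, Finset.sum_eq_zero, sub_zero]
        intro i _
        rw [hl, hX]
        ring
      · intro i hi he
        have e0 : r 0 = (Finsupp.single i 2 : ℕ →₀ ℕ) 0 := DFunLike.congr_fun he 0
        rw [hr0, Finsupp.single_apply] at e0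
        split_ifs at e0 <;> omega
    have h7 : ‖co r (thA (DD lam hl) hP 1 ⟨tail (m + 1), tail_mem (m + 1) (by omega)⟩)‖ < 1 := h5
    rw [h6, norm_one] at h7
    exact lt_irrefl _ h7

end Pool.Agent.Results.MP_39588e_an.TwoTopologies
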